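import Pool.Agent.helper70.FI4.SpecK

set_option autoImplicit false

namespace Pool.Agent.FI4

open Pool.Agent.helper58.DC Pool.Agent.DI Pool.Agent.GR Pool.Agent.OB Pool.Agent.DR Pool.Agent.FI Pool.Agent.FI3

theorem KCH_nrm {Γ : Type} [Group Γ] (C : Finset (Subgroup Γ)) (x : Γ) :
    x ∈ nrm C ↔ ∀ Q ∈ C, x ∈ nz Q := by
  simp only [nrm, Subgroup.mem_iInf]

theorem KCH (hKG1 : KG1_stmt) : KCH_stmt := by
  classical
  intro p _ G Gb _ _ _ _ R π hQn
  obtain ⟨_, _, hA, hB, hC, hZ, hF, _⟩ := hKG1 p G Gb R π hQn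
  have hinj : Function.Injective (Subgroup.comap π) := by
    intro N N' h
    exact le_antisymm ((hB N N').1 h.le) ((hB N' N).1 h.ge)
  have hback : ∀ Cb : Finset (Subgroup Gb),
      NCh p ⊤ R (Cb.image (Subgroup.comap π)) → NCh p ⊤ ⊥ Cb := by
    intro Cb h
    refine ⟨⟨?_, ?_, ?_, ?_, ?_⟩, ?_⟩
    · intro Q hQ S hS hne
      have h1 : Q.comap π ∈ Cb.image (Subgroup.comap π) := Finset.mem_image_of_mem _ hQ
      have h2 : S.comap π ∈ Cb.image (Subgroup.comap π) := Finset.mem_image_of_mem _ hS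
      rcases h.ch.chain h1 h2 (fun h3 => hne (hinj h3)) with h4 | h4
      · exact Or.inl ((hB Q S).1 h4)
      · exact Or.inr ((hB S Q).1 h4)
    · have h1 := h.ch.mem
      rw [Finset.mem_image] at h1
      obtain ⟨Q, hQ, h2⟩ := h1
      have h3 : Q = ⊥ := hinj (h2.trans hZ.symm)
      rw [← h3]
      exact hQ
    · intro Q _
      exact bot_le
    · intro Q _
      exact le_top
    · intro Q hQ
      exact ((hA Q).2.2.1).2 (h.ch.pg _ (Finset.mem_image_of_mem _ hQ))
    · intro Q hQ S hS hQS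
      exact (hF Q S).2 (h.nm _ (Finset.mem_image_of_mem _ hQ) _ (Finset.mem_image_of_mem _ hS)
        ((hB Q S).2 hQS))
  refine ⟨⟨?_, ?_, ?_⟩, ?_⟩
  · intro Cb h
    have h : NCh p ⊤ ⊥ Cb := h
    change NCh p ⊤ R (Cb.image (Subgroup.comap π))
    refine ⟨⟨?_, ?_, ?_, ?_, ?_⟩, ?_⟩
    · intro X hX Y hY hne
      rw [Finset.mem_coe, Finset.mem_image] at hX hY
      obtain ⟨Q, hQ, rfl⟩ := hX
      obtain ⟨S, hS, rfl⟩ := hY
      rcases h.ch.chain hQ hS (fun h3 => hne (by rw [h3])) with h4 | h4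
      · exact Or.inl ((hB Q S).2 h4)
      · exact Or.inr ((hB S Q).2 h4)
    · rw [Finset.mem_image]
      exact ⟨⊥, h.ch.mem, hZ⟩
    · intro X hX
      rw [Finset.mem_image] at hX
      obtain ⟨Q, _, rfl⟩ := hX
      exact (hA Q).1
    · intro X _
      exact le_top
    · intro X hX
      rw [Finset.mem_image] at hX
      obtain ⟨Q, hQ, rfl⟩ := hX
      exact ((hA Q).2.2.1).1 (h.ch.pg Q hQ)
    · intro X hX Y hY hXY
      rw [Finset.mem_image] at hX hY
      obtain ⟨Q, hQ, rfl⟩ := hX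
      obtain ⟨S, hS, rfl⟩ := hY
      exact (hF Q S).1 (h.nm Q hQ S hS ((hB Q S).1 hXY))
  · intro Cb _ Cb' _ h
    exact Finset.image_injective hinj h
  · intro C h
    have h : NCh p ⊤ R C := h
    have h1 : (C.image (Subgroup.map π)).image (Subgroup.comap π) = C := by
      rw [Finset.image_image]
      apply Finset.ext
      intro X
      rw [Finset.mem_image]
      constructor
      · rintro ⟨H, hH, h2⟩
        have h3 : (H.map π).comap π = X := h2
        rw [hC H (h.ch.bot H hH)] at h3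
        rw [← h3]
        exact hH
      · intro hX
        exact ⟨X, hX, hC X (h.ch.bot X hX)⟩
    refine ⟨C.image (Subgroup.map π), ?_, h1⟩
    apply hback
    rw [h1]
    exact h
  · intro Cb
    refine ⟨Finset.card_image_of_injective _ hinj, ?_⟩
    ext x
    rw [Subgroup.mem_comap, KCH_nrm, KCH_nrm]
    constructor
    · intro hx X hX
      rw [Finset.mem_image] at hX
      obtain ⟨Q, hQ, rfl⟩ := hX
      have h2 : x ∈ (nz Q).comap π := Subgroup.mem_comap.2 (hx Q hQ)
      rw [(hA Q).2.2.2] at h2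
      exact h2
    · intro hx Q hQ
      have h2 : x ∈ (nz Q).comap π := by
        rw [(hA Q).2.2.2]
        exact hx _ (Finset.mem_image_of_mem _ hQ)
      exact Subgroup.mem_comap.1 h2

end Pool.Agent.FI4
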